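import Mathlib
import Pool.Agent.Helper74.Iso3.Defs3
import Pool.Agent.Helper74.Iso3.LinAlg
import Pool.Agent.Helper21.Iso3.Cutoff
import Pool.Agent.Helper22.Iso3.M2

/-!
# The first variation formula in a boundary box (module M6b)
-/

namespace Pool.Agent.Helper74.Iso3

open Module InnerProductSpace MeasureTheory Set Filter Topology
open Pool.Agent.Helper74.Iso Pool.Agent.Helper74.Iso2
open scoped ContDiff ENNReal

variable {E : Type*} [NormedAddCommGroup E] [InnerProductSpace ℝ E] [FiniteDimensional ℝ E]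

/-- the cutoff function -/
noncomputable def fvCut (s : ℝ) : ℝ := Real.smoothTransition (2 * s - 1)

lemma fvCut_contDiff {n : ℕ∞} : ContDiff ℝ n fvCut :=
  Real.smoothTransition.contDiff.comp ((contDiff_const.mul contDiff_id).sub contDiff_const)

lemma fvCut_zero {s : ℝ} (h : s ≤ 1 / 2) : fvCut s = 0 :=
  Real.smoothTransition.zero_of_nonpos (by linarith)

lemma fvCut_one {s : ℝ} (h : 1 ≤ s) : fvCut s = 1 :=
  Real.smoothTransition.one_of_one_le (by linarith)

lemma abs_fvCut_le (s : ℝ) : |fvCut s| ≤ 1 := by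
  rw [fvCut, abs_of_nonneg (Real.smoothTransition.nonneg _)]
  exact Real.smoothTransition.le_one _

lemma fv_tdiv_add (T : Submodule ℝ E) (A B : E →L[ℝ] E) :
    tdiv T (A + B) = tdiv T A + tdiv T B := by
  unfold tdiv
  rw [ContinuousLinearMap.comp_add, ContinuousLinearMap.toLinearMap_add, map_add]

lemma fv_tdiv_smul (T : Submodule ℝ E) (a : ℝ) (A : E →L[ℝ] E) :
    tdiv T (a • A) = a * tdiv T A := by
  unfold tdiv
  rw [ContinuousLinearMap.comp_smul, ContinuousLinearMap.toLinearMap_smul, map_smul, smul_eq_mul]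

lemma fv_tdiv_zero (T : Submodule ℝ E) : tdiv T (0 : E →L[ℝ] E) = 0 := by
  simpa using fv_tdiv_smul T 0 (0 : E →L[ℝ] E)

omit [FiniteDimensional ℝ E] in
lemma fv_contDiff {N : Set E} (hN : IsOpen N) {f : E → ℝ} (hf : ContDiffOn ℝ ∞ f N)
    {X : E → E} (hX : ContDiff ℝ 1 X) (hXN : tsupport X ⊆ N) (c : ℝ) :
    ContDiff ℝ 1 (fun x => fvCut (c * f x) • X x) := by
  rw [contDiff_iff_contDiffAt]
  intro x
  by_cases hx : x ∈ tsupport X
  · have h1 : ContDiffAt ℝ 1 f x :=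
      (hf.contDiffAt (hN.mem_nhds (hXN hx))).of_le (by exact_mod_cast le_top)
    have h2 : ContDiffAt ℝ 1 (fun x => c * f x) x := contDiffAt_const.mul h1
    have h3 : ContDiff ℝ 1 fvCut := by exact_mod_cast fvCut_contDiff (n := 1)
    exact (h3.contDiffAt.comp x h2).smul hX.contDiffAt
  · have h1 : X =ᶠ[𝓝 x] 0 := notMem_tsupport_iff_eventuallyEq.1 hx
    have h2 : (fun x => fvCut (c * f x) • X x) =ᶠ[𝓝 x] fun _ => 0 := by
      filter_upwards [h1] with y hy
      rw [hy]; simp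
    exact contDiffAt_const.congr_of_eventuallyEq h2

omit [FiniteDimensional ℝ E] in
lemma fv_disjoint {N B : Set E} (hN : IsOpen N) {f : E → ℝ} (hf : ContDiffOn ℝ ∞ f N)
    {X : E → E} (hXN : tsupport X ⊆ N) (h0 : ∀ x ∈ B ∩ N, f x = 0)
    (c : ℝ) : Disjoint (tsupport (fun x => fvCut (c * f x) • X x)) B := by
  rw [Set.disjoint_left]
  intro x hx hxB
  revert hx
  rw [imp_false, notMem_tsupport_iff_eventuallyEq]
  by_cases hx : x ∈ tsupport X
  · have hc : ContinuousAt f x := (hf.continuousOn).continuousAt (hN.mem_nhds (hXN hx))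
    have h1 : Tendsto (fun y => c * f y) (𝓝 x) (𝓝 (c * f x)) := hc.tendsto.const_mul c
    rw [h0 x ⟨hxB, hXN hx⟩, mul_zero] at h1
    have h2 : ∀ᶠ y in 𝓝 x, c * f y < 1 / 2 := h1.eventually (gt_mem_nhds (by norm_num))
    filter_upwards [h2] with y hy
    rw [fvCut_zero hy.le]; simp
  · have h1 : X =ᶠ[𝓝 x] 0 := notMem_tsupport_iff_eventuallyEq.1 hx
    filter_upwards [h1] with y hy
    rw [hy]; simp

omit [FiniteDimensional ℝ E] in
/-- outside of the support both the field and its derivative vanish -/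
lemma fv_off {N : Set E} {X : E → E} (hXN : tsupport X ⊆ N) {x : E} (hx : x ∉ N) :
    X x = 0 ∧ fderiv ℝ X x = 0 := by
  have h1 : X =ᶠ[𝓝 x] 0 := notMem_tsupport_iff_eventuallyEq.1 (fun h => hx (hXN h))
  refine ⟨h1.eq_of_nhds, ?_⟩
  rw [h1.fderiv_eq]
  simp

omit [FiniteDimensional ℝ E] in
/-- the derivative of the cut off field at a point of `N` -/
lemma fv_fderiv {N : Set E} (hN : IsOpen N) {f : E → ℝ} (hf : ContDiffOn ℝ ∞ f N)
    {X : E → E} (hX : ContDiff ℝ 1 X) (c : ℝ) {x : E} (hx : x ∈ N) :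
    fderiv ℝ (fun x => fvCut (c * f x) • X x) x =
      fvCut (c * f x) • fderiv ℝ X x +
        (c * deriv fvCut (c * f x)) • (fderiv ℝ f x).smulRight (X x) := by
  have h1 : DifferentiableAt ℝ f x :=
    (hf.contDiffAt (hN.mem_nhds hx)).differentiableAt (by simp)
  have h2 : HasFDerivAt (fun x => c * f x) (c • fderiv ℝ f x) x := h1.hasFDerivAt.const_mul c
  have h3 : HasDerivAt fvCut (deriv fvCut (c * f x)) (c * f x) := by
    have h4 : ContDiff ℝ 1 fvCut := by exact_mod_cast fvCut_contDiff (n := 1)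
    exact (h4.differentiable (by simp) _).hasDerivAt
  have h4 : HasFDerivAt (fun x => fvCut (c * f x))
      (deriv fvCut (c * f x) • (c • fderiv ℝ f x)) x :=
    HasDerivAt.comp_hasFDerivAt (f := fun x => c * f x) (h₂ := fvCut) x h3 h2
  have h5 : HasFDerivAt X (fderiv ℝ X x) x :=
    (hX.differentiable (by simp) x).hasFDerivAt
  have h6 := h4.smul h5
  refine (h6.fderiv : fderiv ℝ (fun x => fvCut (c * f x) • X x) x = _).trans ?_
  ext v
  simp [smul_smul]
  ring_nf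

omit [FiniteDimensional ℝ E] in
/-- the derivative of the boundary function in the box -/
lemma BdBox.fderiv_comp {M B N : Set E} {P : ℝ × ℝ → E} {Ω : Set (ℝ × ℝ)} {r : ℝ} {f : E → ℝ}
    (hb : BdBox M B N P Ω r f) {k : ℝ × ℝ} (hk : k ∈ Icc 0 r ×ˢ Icc (-r) r) (hkN : P k ∈ N) :
    fderiv ℝ f (P k) (d1 P k) = 1 ∧ fderiv ℝ f (P k) (d2 P k) = 0 := by
  have hr := hb.pos
  have hQ : UniqueDiffWithinAt ℝ (Icc (0 : ℝ) r ×ˢ Icc (-r) r) k :=
    (uniqueDiffOn_Icc hr).prod (uniqueDiffOn_Icc (by linarith)) k hk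
  have h1 : HasFDerivAt P (fderiv ℝ P k) k :=
    ((hb.smooth.contDiffAt (hb.isOpenΩ.mem_nhds (hb.sub hk))).differentiableAt
      (by simp)).hasFDerivAt
  have h2 : HasFDerivAt f (fderiv ℝ f (P k)) (P k) :=
    ((hb.hsmooth.contDiffAt (hb.isOpenN.mem_nhds hkN)).differentiableAt (by simp)).hasFDerivAt
  have h3 : HasFDerivWithinAt (f ∘ P) (fderiv ℝ f (P k) ∘L fderiv ℝ P k)
      (Icc (0 : ℝ) r ×ˢ Icc (-r) r) k := (h2.comp k h1).hasFDerivWithinAt
  have h4 : HasFDerivWithinAt (fun k : ℝ × ℝ => k.1) (ContinuousLinearMap.fst ℝ ℝ ℝ)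
      (Icc (0 : ℝ) r ×ˢ Icc (-r) r) k := hasFDerivAt_fst.hasFDerivWithinAt
  have h5 : (f ∘ P) =ᶠ[𝓝[Icc (0 : ℝ) r ×ˢ Icc (-r) r] k] fun k => k.1 := by
    have h6 : ∀ᶠ k' in 𝓝 k, P k' ∈ N := h1.continuousAt (hb.isOpenN.mem_nhds hkN)
    filter_upwards [nhdsWithin_le_nhds h6, self_mem_nhdsWithin] with k' h h'
    exact hb.hP k' h' h
  have h6 : HasFDerivWithinAt (f ∘ P) (ContinuousLinearMap.fst ℝ ℝ ℝ)
      (Icc (0 : ℝ) r ×ˢ Icc (-r) r) k := h4.congr_of_eventuallyEq h5 (hb.hP k hk hkN)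
  have h7 := hQ.eq h3 h6
  constructor
  · have h8 := congrArg (fun L : ℝ × ℝ →L[ℝ] ℝ => L (1, 0)) h7
    simpa [d1] using h8
  · have h8 := congrArg (fun L : ℝ × ℝ →L[ℝ] ℝ => L (0, 1)) h7
    simpa [d2] using h8

lemma fv_ae_pos (r : ℝ) : ∀ᵐ k ∂((volume : Measure (ℝ × ℝ)).restrict
    (Icc (0 : ℝ) r ×ˢ Icc (-r) r)), 0 < k.1 := by
  have h1 : ∀ᵐ k ∂(volume : Measure (ℝ × ℝ)), k.1 ≠ 0 := by
    rw [ae_iff]
    have h2 : {k : ℝ × ℝ | ¬ k.1 ≠ 0} = {(0 : ℝ)} ×ˢ (univ : Set ℝ) := by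
      ext k; simp
    rw [h2, Measure.volume_eq_prod, Measure.prod_prod]
    simp
  have h2 := ae_restrict_of_ae (s := Icc (0 : ℝ) r ×ˢ Icc (-r) r) h1
  filter_upwards [h2, ae_restrict_mem (measurableSet_Icc.prod measurableSet_Icc)] with k hk hk'
  exact lt_of_le_of_ne hk'.1.1 (Ne.symm hk)

/-- M6b -/
theorem BdBox.firstVariation [MeasurableSpace E] [BorelSpace E] {M B N : Set E}
    (hM : MeasurableSet M)
    {P : ℝ × ℝ → E} {Ω : Set (ℝ × ℝ)} {r : ℝ} {f : E → ℝ} (hb : BdBox M B N P Ω r f)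
    (hstat : IsStationary1 M B) {X : E → E} (hX : ContDiff ℝ 1 X) (hXN : tsupport X ⊆ N) :
    ∫ x in M, tdiv (tangentPlane M x) (fderiv ℝ X x) ∂μHE[2] =
      ∫ t in (-r)..r, ‖d2 P (0, t)‖ * ⟪X (P (0, t)), cn (d1 P (0, t)) (d2 P (0, t))⟫_ℝ := by
  have hr := hb.pos
  set Q : Set (ℝ × ℝ) := Icc (0 : ℝ) r ×ˢ Icc (-r) r with hQdef
  have hQc : IsCompact Q := isCompact_Icc.prod isCompact_Icc
  have hQm : MeasurableSet Q := measurableSet_Icc.prod measurableSet_Icc
  have hP1 : ContDiffOn ℝ 1 P Ω := hb.smooth.of_le (by exact_mod_cast le_top)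
  -- transfer of the integral to the box
  have key : ∀ Y : E → E, (∀ x, x ∉ N → fderiv ℝ Y x = 0) →
      ∫ x in M, tdiv (tangentPlane M x) (fderiv ℝ Y x) ∂μHE[2] =
        ∫ k in Q, jac (d1 P k) (d2 P k) * tdiv (tangentPlane M (P k)) (fderiv ℝ Y (P k)) := by
    intro Y hY
    have hsub : P '' Q ⊆ M := image_subset_iff.2 hb.mapsTo
    rw [← integral_surface hb.isOpenΩ hP1 hb.inj hb.imm hQm hb.sub
      (fun x => tdiv (tangentPlane M x) (fderiv ℝ Y x))]
    refine setIntegral_eq_of_subset_of_forall_sdiff_eq_zero hM hsub ?_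
    intro x hx
    have hxN : x ∉ N := fun hxN => hx.2 (hb.surj ⟨hx.1, hxN⟩)
    rw [hY x hxN, fv_tdiv_zero]
  set H : ℝ × ℝ → ℝ := fun k =>
    jac (d1 P k) (d2 P k) * tdiv (tangentPlane M (P k)) (fderiv ℝ X (P k)) with hH
  set G : ℝ × ℝ → ℝ := fun k =>
    -(‖d2 P k‖ * ⟪X (P k), cn (d1 P k) (d2 P k)⟫_ℝ) with hG
  have hlin : ∀ k ∈ Q, LinearIndependent ℝ ![d1 P k, d2 P k] := fun k hk =>
    linearIndependent_pair (hb.imm k (hb.sub hk))
  have hspan : ∀ k ∈ Q, tangentPlane M (P k) = Submodule.span ℝ {d1 P k, d2 P k} := fun k hk =>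
    (hb.tangent k hk).trans (range_eq_span_pair _)
  have hPc : ContinuousOn P Q := hP1.continuousOn.mono hb.sub
  have hDP : ContinuousOn (fderiv ℝ P) Q :=
    (hP1.continuousOn_fderiv_of_isOpen hb.isOpenΩ le_rfl).mono hb.sub
  have hd1 : ContinuousOn (d1 P) Q := hDP.clm_apply continuousOn_const
  have hd2 : ContinuousOn (d2 P) Q := hDP.clm_apply continuousOn_const
  have hj : ContinuousOn (fun k => jac (d1 P k) (d2 P k)) Q :=
    continuous_jac.comp_continuousOn (hd1.prodMk hd2)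
  have hjpos : ∀ k ∈ Q, jac (d1 P k) (d2 P k) ≠ 0 := fun k hk => (jac_pos (hlin k hk)).ne'
  have hd2ne : ∀ k ∈ Q, ‖d2 P k‖ ≠ 0 := by
    intro k hk
    have h1 := (hlin k hk).ne_zero 1
    simpa using h1
  have hXP : ContinuousOn (fun k => X (P k)) Q := hX.continuous.comp_continuousOn hPc
  have hA : ContinuousOn (fun k => fderiv ℝ X (P k)) Q :=
    (hX.continuous_fderiv one_ne_zero).comp_continuousOn hPc
  have hHc : ContinuousOn H Q := by
    have h1 : ∀ k ∈ Q, H k = (‖d2 P k‖ ^ 2 * ⟪d1 P k, fderiv ℝ X (P k) (d1 P k)⟫_ℝ -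
        ⟪d1 P k, d2 P k⟫_ℝ * (⟪d1 P k, fderiv ℝ X (P k) (d2 P k)⟫_ℝ +
          ⟪d2 P k, fderiv ℝ X (P k) (d1 P k)⟫_ℝ) +
        ‖d1 P k‖ ^ 2 * ⟪d2 P k, fderiv ℝ X (P k) (d2 P k)⟫_ℝ) / jac (d1 P k) (d2 P k) := by
      intro k hk
      rw [← jac_sq_mul_tdiv (hlin k hk), ← hspan k hk]
      have := hjpos k hk
      simp only [hH]
      field_simp
    refine ContinuousOn.congr ?_ h1
    refine ContinuousOn.div ?_ hj hjpos
    have e11 := hd1.inner (𝕜 := ℝ) (hA.clm_apply hd1)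
    have e12 := hd1.inner (𝕜 := ℝ) (hA.clm_apply hd2)
    have e21 := hd2.inner (𝕜 := ℝ) (hA.clm_apply hd1)
    have e22 := hd2.inner (𝕜 := ℝ) (hA.clm_apply hd2)
    have e0 := hd1.inner (𝕜 := ℝ) hd2
    exact (((hd2.norm.pow 2).mul e11).sub (e0.mul (e12.add e21))).add ((hd1.norm.pow 2).mul e22)
  have hGc : ContinuousOn G Q := by
    refine (hd2.norm.mul (hXP.inner (𝕜 := ℝ) ?_)).neg
    unfold cn
    refine ContinuousOn.neg ?_
    refine ContinuousOn.smul ?_ ?_
    · exact (hd2.norm.mul hj).inv₀ (fun k hk => mul_ne_zero (hd2ne k hk) (hjpos k hk))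
    · exact ((hd2.norm.pow 2).smul hd1).sub ((hd1.inner (𝕜 := ℝ) hd2).smul hd2)
  have hHi : IntegrableOn H Q := hHc.integrableOn_compact hQc
  -- the cut off fields
  have hcut1 : ContDiff ℝ 1 fvCut := by exact_mod_cast fvCut_contDiff (n := 1)
  have hder : Continuous (deriv fvCut) := hcut1.continuous_deriv le_rfl
  have hn : ∀ n : ℕ, (∫ k in Q, fvCut (((n : ℝ) + 1) * k.1) * H k) +
      ∫ k in Q, ((n : ℝ) + 1) * deriv fvCut (((n : ℝ) + 1) * k.1) * G k = 0 := by
    intro n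
    have h1 := hstat (fun x => fvCut (((n : ℝ) + 1) * f x) • X x)
      (fv_contDiff hb.isOpenN hb.hsmooth hX hXN _)
      (fv_disjoint hb.isOpenN hb.hsmooth hXN hb.h0 _)
    have hsupp : tsupport (fun x => fvCut (((n : ℝ) + 1) * f x) • X x) ⊆ N :=
      (tsupport_smul_subset_right _ _).trans hXN
    rw [key _ (fun x hx => (fv_off hsupp hx).2)] at h1
    rw [← integral_add, ← h1]
    · refine setIntegral_congr_fun hQm (fun k hk => ?_)
      by_cases hkN : P k ∈ N
      · obtain ⟨hu, hv⟩ := hb.fderiv_comp hk hkN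
        rw [fv_fderiv hb.isOpenN hb.hsmooth hX _ hkN, fv_tdiv_add, fv_tdiv_smul, fv_tdiv_smul,
          hb.hP k hk hkN]
        have h2 := jac_mul_tdiv_smulRight (hlin k hk) hu hv (X (P k))
        rw [← hspan k hk] at h2
        simp only [hH, hG]
        rw [← h2]
        ring
      · rw [(fv_off hsupp hkN).2]
        simp only [hH, hG]
        rw [(fv_off hXN hkN).2, (fv_off hXN hkN).1]
        simp [fv_tdiv_zero]
    · refine ContinuousOn.integrableOn_compact hQc ?_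
      exact ((hcut1.continuous.comp (continuous_const.mul continuous_fst)).continuousOn).mul hHc
    · refine ContinuousOn.integrableOn_compact hQc ?_
      exact ((continuous_const.mul (hder.comp
        (continuous_const.mul continuous_fst))).continuousOn).mul hGc
  have hlim1 : Tendsto (fun n : ℕ => ∫ k in Q, fvCut (((n : ℝ) + 1) * k.1) * H k) atTop
      (𝓝 (∫ k in Q, H k)) := by
    refine tendsto_integral_of_dominated_convergence (fun k => ‖H k‖) ?_ hHi.norm ?_ ?_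
    · intro n
      exact ContinuousOn.aestronglyMeasurable
        (((hcut1.continuous.comp (continuous_const.mul continuous_fst)).continuousOn).mul hHc) hQm
    · intro n
      refine Eventually.of_forall (fun k => ?_)
      rw [norm_mul, Real.norm_eq_abs]
      calc _ ≤ 1 * ‖H k‖ := mul_le_mul_of_nonneg_right (abs_fvCut_le _) (norm_nonneg _)
        _ = _ := one_mul _
    · filter_upwards [fv_ae_pos r] with k hk
      refine tendsto_const_nhds.congr' ?_
      have h2 : Tendsto (fun n : ℕ => ((n : ℝ) + 1) * k.1) atTop atTop :=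
        (tendsto_atTop_add_const_right _ _ tendsto_natCast_atTop_atTop).atTop_mul_const hk
      filter_upwards [h2.eventually_ge_atTop 1] with n h3
      rw [fvCut_one h3, one_mul]
  have hlim2 := tendsto_cutoff hr hGc hcut1 (fun s hs => fvCut_zero hs) (fun s hs => fvCut_one hs)
  have hlim := (hlim1.add hlim2).congr (fun n => hn n)
  have h0 := tendsto_nhds_unique hlim tendsto_const_nhds
  rw [key X (fun x hx => (fv_off hXN hx).2)]
  have h3 : ∫ t in (-r)..r, G (0, t) =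
      -∫ t in (-r)..r, ‖d2 P (0, t)‖ * ⟪X (P (0, t)), cn (d1 P (0, t)) (d2 P (0, t))⟫_ℝ := by
    rw [← intervalIntegral.integral_neg]
  rw [h3] at h0
  linarith

end Pool.Agent.Helper74.Iso3
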